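import Pool.Agent.Q282.UZ.Sys
import Pool.Agent.Z125.UN.Bnd
import Pool.Agent.Y116.UV.Main

/-!
# Hypersurfaces of tripartite hypergraphs of small degree

Hypersurfaces `∑_{(i, j, k) ∈ H} x_i y_j z_k = 1` such that every variable `z_k` occurs in at most three
terms.
-/

set_option autoImplicit false

open CategoryTheory AlgebraicGeometry MvPolynomial Pool.Agent.Y116.UV Pool.Agent.Z125.UN
  Pool.Agent.Q282.UK Pool.Agent.Q282.UZ

namespace Run7.h798.UV

variable {R : Type} [CommRing R]

/-- Every element of the first part of the hypergraph is in at most three edges. -/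
def SmallDeg {a b c : ℕ} (H : Finset (Fin a × Fin b × Fin c)) : Prop :=
  ∀ l : Fin a, (H.filter fun h => h.1 = l).card ≤ 3

/-- The hypergraph of a system of bilinear forms. -/
def hyg {a b c : ℕ} (E : Fin a → Finset (Fin b × Fin c)) : Finset (Fin a × Fin b × Fin c) :=
  Finset.univ.filter fun h => h.2 ∈ E h.1

lemma hyg_deg {a b c : ℕ} (E : Fin a → Finset (Fin b × Fin c)) (h : ∀ l, (E l).card ≤ 3) :
    SmallDeg (hyg E) := by
  intro l
  refine le_trans ?_ (h l)
  refine Finset.card_le_card_of_injOn (fun h => h.2) ?_ ?_
  · intro x hx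
    have h1 := Finset.mem_filter.mp hx
    have h2 := (Finset.mem_filter.mp h1.1).2
    rw [h1.2] at h2
    exact h2
  · intro x hx y hy hxy
    have h1 := (Finset.mem_filter.mp hx).2
    have h2 := (Finset.mem_filter.mp hy).2
    exact Prod.ext (h1.trans h2.symm) hxy

/-- the coefficients -/
def indc {a b c : ℕ} (E : Fin a → Finset (Fin b × Fin c)) (l : Fin a) (i : Fin b) (j : Fin c) : R :=
  if (l, i, j) ∈ hyg E then 1 else 0

lemma few_bil {a b c : ℕ} (E : Fin a → Finset (Fin b × Fin c)) (l : Fin a) :
    few R (E l) = bil (Fin b) (Fin c) (indc (R := R) E l) := by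
  classical
  rw [few, bil_apply, ← Finset.sum_product']
  rw [← Finset.sum_filter_add_sum_filter_not (Finset.univ ×ˢ Finset.univ) (fun e => e ∈ E l)]
  have hm : ∀ x : Fin b × Fin c, (l, x.1, x.2) ∈ hyg E ↔ x ∈ E l := by
    intro x
    rw [hyg, Finset.mem_filter]
    simp
  have h1 : ∑ x ∈ (Finset.univ ×ˢ Finset.univ : Finset (Fin b × Fin c)) with x ∉ E l,
      (C (indc (R := R) E l x.1 x.2) * X (Sum.inl x.1) * X (Sum.inr x.2) :
        MvPolynomial (Fin b ⊕ Fin c) R) = 0 := by
    apply Finset.sum_eq_zero
    intro x hx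
    rw [indc, if_neg (fun h => (Finset.mem_filter.mp hx).2 ((hm x).mp h)), C_0, zero_mul, zero_mul]
  rw [h1, add_zero]
  have h2 : (Finset.univ ×ˢ Finset.univ : Finset (Fin b × Fin c)).filter (fun e => e ∈ E l) = E l := by
    ext x
    simp
  rw [h2]
  apply Finset.sum_congr rfl
  intro x hx
  rw [indc, if_pos ((hm x).mpr hx), C_1, one_mul]

/-- **Theorem.** A property with the closure properties `Uni` is true for all (separated) schemes of
finite type over a quotient ring of `ℤ` if and only if it is true for the hypersurfaces of the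
tripartite hypergraphs in which every element of the first part is in at most three edges. -/
theorem deg_iff [IsNoetherianRing R] (hR : Function.Surjective (Int.cast : ℤ → R)) {sep : Prop}
    {P : Sch R → Prop} (hP : Uni sep P) :
    (∀ X : Sch R, FT sep X → P X) ↔
      ∀ (a b c : ℕ) (H : Finset (Fin a × Fin b × Fin c)), SmallDeg H → P (tripS R H) := by
  classical
  constructor
  · intro h a b c H _
    exact h _ (ft_aff sep)
  · intro h
    have hC : Clo sep P := ⟨hP.iso, hP.total, hP.opened, hP.torus⟩
    rw [three_iff (short_presents hR) hC]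
    intro a b c E hE
    refine of_jou hP (fun l => few R (E l)) ?_ ?_
    · exact iso_alg hP (renameEquiv R (Fintype.equivFin (Fin a ⊕ Fin b)).symm) (hP.space _)
    · have h1 : (fun l => few R (E l)) = fun l => bil (Fin a) (Fin b) (indc (R := R) E l) :=
        funext fun l => few_bil E l
      have h3 : ∀ f : Fin c → MvPolynomial (Fin a ⊕ Fin b) R,
          f = (fun l => bil (Fin a) (Fin b) (indc (R := R) E l)) → P (aff R (Jou f)) := by
        rintro f rfl
        refine iso_alg hP (hypEquiv fun l => indc (R := R) E l) ?_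
        have h2 := h c a b (hyg E) (hyg_deg E hE)
        unfold tripS Trip at h2
        rw [← tri_ind] at h2
        exact h2
      exact h3 _ h1

end Run7.h798.UV
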