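import Pool.Agent.Run7.h798.UV.Geom
import Pool.Agent.Run7.h798.UV.Deg

/-!
# Filtered closure properties

`P N X` is a decreasing family of properties (for example: a statement on the homology of `X` in all
degrees `≥ -N`). Passing to an open subscheme costs one degree, passing from `X × 𝔾_m` to `X` gains one
degree. So the property for one `N` and for the explicit schemes implies the property for all `N`.
-/

set_option autoImplicit false

open CategoryTheory CategoryTheory.Limits AlgebraicGeometry MvPolynomial Pool.Agent.Y116.UV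
  Pool.Agent.Q282.UK Pool.Agent.Q282.UZ

namespace Run7.h798.UV

variable {R : Type} [CommRing R]

/-- Closure properties of a decreasing family `P N` of properties. -/
structure FClo (sep : Prop) (P : ℤ → Sch R → Prop) : Prop where
  mono : ∀ (N : ℤ) (X : Sch R), FT sep X → P (N + 1) X → P N X
  iso : ∀ {X Y : Sch R}, FT sep X → Nonempty (X ≅ Y) → ∀ N, P N X → P N Y
  total : ∀ {Z X U : Sch R} (f : Z ⟶ X) (g : U ⟶ X), FT sep X → IsTriple f g → ∀ N, P (N + 1) Z →
    P (N + 1) U → P N X
  opened : ∀ {Z X U : Sch R} (f : Z ⟶ X) (g : U ⟶ X), FT sep X → IsTriple f g → ∀ N, P (N + 1) Z →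
    P (N + 1) X → P N U
  torus : ∀ (A : Type) [CommRing A] [Algebra R A] [Algebra.FiniteType R A] (N : ℤ),
    P (N - 1) (aff R (LaurentPolynomial A)) → P N (aff R A)

/-- The additional properties for the reduction to hypersurfaces. -/
structure FUni (sep : Prop) (P : ℤ → Sch R → Prop) : Prop extends FClo sep P where
  closed : ∀ {Z X U : Sch R} (f : Z ⟶ X) (g : U ⟶ X), FT sep X → IsTriple f g → ∀ N, P N X → P N U →
    P N Z
  space : ∀ (n : ℕ) (N : ℤ), P N (aff R (MvPolynomial (Fin n) R))
  jouanolou : ∀ (A : Type) [CommRing A] [Algebra R A] [Algebra.FiniteType R A] (m : ℕ)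
    (f : Fin m → A) (U : Sch R) (j : U ⟶ aff R A), IsOpenImmersion j.left →
    Set.range j.left = {x : PrimeSpectrum A | ∃ l, f l ∉ x.asIdeal} →
    ∀ N, P N (aff R (Jou f)) → P N U

variable {sep : Prop} {P : ℤ → Sch R → Prop}

lemma FClo.le (hP : FClo sep P) {X : Sch R} (hX : FT sep X) {N : ℤ} (n : ℕ) (h : P (N + n) X) :
    P N X := by
  induction n with
  | zero => simpa using h
  | succ n ih =>
    refine ih (hP.mono _ X hX ?_)
    have e : N + ((n + 1 : ℕ) : ℤ) = N + n + 1 := by push_cast; ring
    rwa [e] at h

/-- `P N` is true for the three-term systems. -/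
def SysAt (P : ℤ → Sch R → Prop) (N : ℤ) : Prop :=
  ∀ (a b c : ℕ) (E : Fin c → Finset (Fin a × Fin b)), (∀ l, (E l).card ≤ 3) → P N (sysS R E)

lemma fsys_step (hS : ShortPresents R) (hP : FClo sep P) {N : ℤ} (h : SysAt P N) (A : Type)
    [CommRing A] [Algebra R A] [Algebra.FiniteType R A] : P (N + 1) (aff R A) := by
  obtain ⟨Z, X, U, f, g, hX, ht, ⟨a, b, c, E, hE, hZ⟩, ⟨a', b', c', E', hE', hX'⟩, hU, e⟩ :=
    geom hS sep A
  have h1 : P (N - 1) U := by
    have e1 : N - 1 + 1 = N := by ring
    refine hP.opened f g hX ht _ (hP.iso (ft_aff sep) hZ _ ?_)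
      (hP.iso (ft_aff sep) hX' _ ?_)
    · rw [e1]
      exact h a b c E hE
    · rw [e1]
      exact h a' b' c' E' hE'
  have h2 := hP.iso hU e _ h1
  have h7 := ft_laurent (R := R) A
  refine hP.torus A (N + 1) (hP.torus _ _ ?_)
  have h3 : N + 1 - 1 - 1 = N - 1 := by ring
  rw [h3]
  exact h2

/-- A family with the filtered closure properties is true for all (separated) schemes of finite type
and all `N` as soon as it is true for the three-term systems and one `N`. -/
theorem filtered_iff (hS : ShortPresents R) (hP : FClo sep P) (N : ℤ) :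
    (∀ X : Sch R, FT sep X → ∀ i, P i X) ↔ SysAt P N := by
  constructor
  · intro h a b c E _
    exact h _ (ft_aff sep) N
  · intro h
    have h1 : ∀ n : ℕ, SysAt P (N + n) := by
      intro n
      induction n with
      | zero => simpa using h
      | succ n ih =>
        intro a b c E _
        have e : N + ((n + 1 : ℕ) : ℤ) = N + n + 1 := by push_cast; ring
        rw [e]
        exact fsys_step hS hP ih _
    have h2 : ∀ (A : Type) [CommRing A] [Algebra R A] [Algebra.FiniteType R A],
        ∀ i, P i (aff R A) := by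
      intro A _ _ _ i
      have h3 := fsys_step hS hP (h1 (i - N).toNat) A
      refine hP.le (ft_aff sep) (N + (i - N).toNat + 1 - i).toNat ?_
      have e : i + ((N + ((i - N).toNat : ℤ) + 1 - i).toNat : ℤ) = N + (i - N).toNat + 1 := by
        omega
      rw [e]
      exact h3
    intro X hX i
    exact of_affine' (P := fun X => ∀ i, P i X) (fun hX e h i => hP.iso hX e i (h i))
      (fun f g hX ht h h' i => hP.total f g hX ht i (h _) (h' _)) (fun A _ _ _ => h2 A) X hX i

lemma f_of_jou (hP : FUni sep P) {A : Type} [CommRing A] [Algebra R A] [Algebra.FiniteType R A]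
    {m : ℕ} (f : Fin m → A) (N : ℤ) (hA : P N (aff R A)) (hJ : P N (aff R (Jou f))) :
    P N (aff R (A ⧸ Ideal.span (Set.range f))) := by
  refine hP.closed (affMap (Ideal.Quotient.mkₐ R (Ideal.span (Set.range f))))
    (opnMap (aff R A) (neOpen R f)) (ft_aff sep) ⟨closed_affMap _ (Ideal.Quotient.mkₐ_surjective R _),
      inferInstance, ?_⟩ N hA
    (hP.jouanolou A m f (opn (aff R A) (neOpen R f)) (opnMap (aff R A) (neOpen R f)) inferInstance
      (range_opnMap _ _) N hJ)
  rw [range_affMap _ (Ideal.Quotient.mkₐ_surjective R _), range_opnMap]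
  ext x
  change (∀ a, Ideal.Quotient.mk (Ideal.span (Set.range f)) a = 0 → a ∈ x.asIdeal) ↔
    ¬ ∃ l, f l ∉ x.asIdeal
  push Not
  constructor
  · intro h l
    exact h (f l) (Ideal.Quotient.eq_zero_iff_mem.mpr (Ideal.subset_span ⟨l, rfl⟩))
  · intro h a ha
    rw [Ideal.Quotient.eq_zero_iff_mem] at ha
    refine (Ideal.span_le.mpr ?_ : Ideal.span (Set.range f) ≤ x.asIdeal) ha
    rintro _ ⟨l, rfl⟩
    exact h l

/-- A family with the filtered closure properties is true for all (separated) schemes of finite type
over a quotient ring of `ℤ` and all `N` as soon as it is true for one `N` and for the hypersurfaces of the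
tripartite hypergraphs in which every element of the first part is in at most three edges. -/
theorem filtered_deg_iff [IsNoetherianRing R] (hR : Function.Surjective (Int.cast : ℤ → R))
    (hP : FUni sep P) (N : ℤ) :
    (∀ X : Sch R, FT sep X → ∀ i, P i X) ↔
      ∀ (a b c : ℕ) (H : Finset (Fin a × Fin b × Fin c)), SmallDeg H → P N (tripS R H) := by
  classical
  constructor
  · intro h a b c H _
    exact h _ (ft_aff sep) N
  · intro h
    rw [filtered_iff (short_presents hR) hP.toFClo N]
    intro a b c E hE
    have hj : P N (aff R (Jou fun l => few R (E l))) := by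
      have h1 : (fun l => few R (E l)) = fun l => bil (Fin a) (Fin b) (indc (R := R) E l) :=
        funext fun l => few_bil E l
      have h3 : ∀ f : Fin c → MvPolynomial (Fin a ⊕ Fin b) R,
          f = (fun l => bil (Fin a) (Fin b) (indc (R := R) E l)) → P N (aff R (Jou f)) := by
        rintro f rfl
        refine hP.iso (ft_aff sep) ⟨(affIso (hypEquiv fun l => indc (R := R) E l)).symm⟩ N ?_
        have h2 := h c a b (hyg E) (hyg_deg E hE)
        unfold tripS Trip at h2
        rw [← tri_ind] at h2
        exact h2
      exact h3 _ h1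
    have hs : P N (aff R (MvPolynomial (Fin a ⊕ Fin b) R)) :=
      hP.iso (ft_aff sep) ⟨(affIso (renameEquiv R (Fintype.equivFin (Fin a ⊕ Fin b)).symm)).symm⟩ N
        (hP.space _ N)
    exact f_of_jou hP (fun l => few R (E l)) N hs hj

end Run7.h798.UV
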