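import Pool.Agent.Q282.UZ.Short

/-!
# Presentations by sums of at most three monomials over the field of rational numbers
-/

set_option autoImplicit false

open MvPolynomial Pool.Agent.Y116.UV Pool.Agent.Q282.UZ

namespace Run7.h798.UV

attribute [local instance] MvPolynomial.algebraMvPolynomial

lemma short_map {m : ℕ} {p : MvPolynomial (Fin m) ℤ} (h : Short p) :
    Short (algebraMap (MvPolynomial (Fin m) ℤ) (MvPolynomial (Fin m) ℚ) p) := by
  classical
  obtain ⟨F, hF, rfl⟩ := h
  refine ⟨F, hF, ?_⟩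
  change MvPolynomial.map (algebraMap ℤ ℚ) (ms ℤ F) = ms ℚ F
  rw [ms, ms, map_sum]
  apply Finset.sum_congr rfl
  intro x _
  rw [MvPolynomial.map_monomial, map_one]

/-- Every algebra of finite type over `ℚ` has a presentation by sums of at most three monomials. -/
theorem short_rat : ShortPresents ℚ := by
  classical
  intro A _ _ _
  obtain ⟨n, φ, hφ⟩ := Algebra.FiniteType.iff_quotient_mvPolynomial''.mp
    (inferInstance : Algebra.FiniteType ℚ A)
  let iZ : MvPolynomial (Fin n) ℤ →+* MvPolynomial (Fin n) ℚ :=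
    algebraMap (MvPolynomial (Fin n) ℤ) (MvPolynomial (Fin n) ℚ)
  let f : MvPolynomial (Fin n) ℤ →+* A := (φ : MvPolynomial (Fin n) ℚ →+* A).comp iZ
  let B := MvPolynomial (Fin n) ℤ ⧸ RingHom.ker f
  let g : B →+* A := RingHom.kerLift f
  have hg : Function.Injective g := RingHom.kerLift_injective f
  obtain ⟨m, ψ, H, hs, hK, hc⟩ := short_int B
  let Ψ : MvPolynomial (Fin m) ℚ →ₐ[ℚ] A := aeval fun i => g (ψ (X i))
  have hcomp : ∀ p : MvPolynomial (Fin m) ℤ,
      Ψ (algebraMap (MvPolynomial (Fin m) ℤ) (MvPolynomial (Fin m) ℚ) p) = g (ψ p) := by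
    intro p
    have h : ((Ψ : MvPolynomial (Fin m) ℚ →+* A).comp
        (algebraMap (MvPolynomial (Fin m) ℤ) (MvPolynomial (Fin m) ℚ))) =
        g.comp (ψ : MvPolynomial (Fin m) ℤ →+* B) := by
      apply MvPolynomial.ringHom_ext
      · intro r
        simp
      · intro i
        change Ψ (MvPolynomial.map _ (X i)) = g (ψ (X i))
        rw [MvPolynomial.map_X]
        exact aeval_X _ _
    exact congrArg (fun F : MvPolynomial (Fin m) ℤ →+* A => F p) h
  let M : Submonoid (MvPolynomial (Fin m) ℤ) := (nonZeroDivisors ℤ).map (C (σ := Fin m))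
  have hM : IsLocalization M (MvPolynomial (Fin m) ℚ) := MvPolynomial.isLocalization _ _
  let Mn : Submonoid (MvPolynomial (Fin n) ℤ) := (nonZeroDivisors ℤ).map (C (σ := Fin n))
  have hMn : IsLocalization Mn (MvPolynomial (Fin n) ℚ) := MvPolynomial.isLocalization _ _
  refine ⟨m, Ψ, H.image (algebraMap (MvPolynomial (Fin m) ℤ) (MvPolynomial (Fin m) ℚ)), ?_, ?_, ?_⟩
  · intro a
    obtain ⟨q, rfl⟩ := hφ a
    obtain ⟨⟨q', s⟩, hq⟩ := IsLocalization.surj Mn q
    obtain ⟨s, N, hN, rfl⟩ := s
    obtain ⟨r, hr⟩ := hs (Ideal.Quotient.mk _ q')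
    have hN0 : (N : ℚ) ≠ 0 := by
      have := nonZeroDivisors.ne_zero hN
      exact_mod_cast this
    have h1 : g (ψ r) = φ (iZ q') := by
      rw [hr]
      rfl
    have h2 : φ q * (N : A) = φ (iZ q') := by
      have h3 := congrArg φ hq
      rw [map_mul] at h3
      rw [← h3]
      congr 1
      change (N : A) = φ (MvPolynomial.map _ (C N))
      rw [MvPolynomial.map_C]
      simp
    refine ⟨C ((N : ℚ)⁻¹) * algebraMap (MvPolynomial (Fin m) ℤ) (MvPolynomial (Fin m) ℚ) r, ?_⟩
    rw [map_mul, hcomp, h1, ← h2]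
    have h4 : Ψ (C ((N : ℚ)⁻¹)) * (N : A) = 1 := by
      have h5 : (N : A) = Ψ (C (N : ℚ)) := by simp
      rw [h5, ← map_mul, ← C_mul, inv_mul_cancel₀ hN0, map_one, map_one]
    linear_combination (φ q) * h4
  · rw [← IsLocalization.map_under M (MvPolynomial (Fin m) ℚ) (RingHom.ker Ψ)]
    have h1 : Ideal.under (MvPolynomial (Fin m) ℤ) (RingHom.ker Ψ) = RingHom.ker ψ := by
      ext p
      rw [Ideal.under, Ideal.mem_comap, RingHom.mem_ker, RingHom.mem_ker]
      constructor
      · intro h
        have h2 := hcomp p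
        rw [h] at h2
        exact (map_eq_zero_iff g hg).mp h2.symm
      · intro h
        have h2 := hcomp p
        rw [h, map_zero] at h2
        exact h2
    rw [h1, hK, Ideal.map_span, Finset.coe_image]
  · intro p hp
    obtain ⟨p, hp', rfl⟩ := Finset.mem_image.mp hp
    exact short_map (hc p hp')

end Run7.h798.UV
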