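import Pool.Agent.Run7.h798.UV.Geom
import Pool.Agent.Q282.UZ.Fam

/-!
# Étale cohomology of cycle complexes: properties and closure

`A n i X` stands for `H^i(X_et, ℤ^c(n))`, where `X` is an arithmetic scheme and `n < 0`.
-/

set_option autoImplicit false

open CategoryTheory CategoryTheory.Limits AlgebraicGeometry Pool.Agent.Y116.UV Pool.Agent.Q193.LT
  Pool.Agent.Q282.UK Pool.Agent.Q282.UZ

universe w

namespace Run7.h798.UV

/-- Properties of the groups `A n i X = H^i(X_et, ℤ^c(n))` for `n < 0` and arithmetic schemes `X`: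

* `iso`: they depend only on the isomorphism class of `X`;
* `les`: long exact sequences `⋯ → A n i Z → A n i X → A n i U → A n (i+1) Z → ⋯` for a closed
  subscheme `Z` of `X` and its complement `U`;
* `torus`: for affine `X` the group `A n i X` is a direct factor of `A n (i-1) (X × 𝔾_m)`;
* `line`: for affine `X`, `A n i (X × 𝔸¹) = A (n-1) (i+2) X`. -/
structure IsZc (A : ℤ → ℤ → Sch ℤ → ModuleCat.{w} ℤ) : Prop where
  iso : ∀ n < 0, ∀ {X Y : Sch ℤ}, FT True X → Nonempty (X ≅ Y) → ∀ i, Nonempty (A n i X ≅ A n i Y)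
  les : ∀ n < 0, ∀ {Z X U : Sch ℤ} (f : Z ⟶ X) (g : U ⟶ X), FT True X → IsTriple f g →
    ∃ m : LesMaps (A n) (Equiv.addRight 1) Z X U, m.IsExact
  torus : ∀ n < 0, ∀ (B : Type) [CommRing B] [Algebra ℤ B] [Algebra.FiniteType ℤ B] (i : ℤ),
    ∃ (s : A n i (aff ℤ B) ⟶ A n (i - 1) (aff ℤ (LaurentPolynomial B)))
      (r : A n (i - 1) (aff ℤ (LaurentPolynomial B)) ⟶ A n i (aff ℤ B)), s ≫ r = 𝟙 _
  line : ∀ n < 0, ∀ (B : Type) [CommRing B] [Algebra ℤ B] [Algebra.FiniteType ℤ B] (i : ℤ),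
    Nonempty (A n i (aff ℤ (Polynomial B)) ≅ A (n - 1) (i + 2) (aff ℤ B))

/-- The group `A n i X` is finitely generated. -/
def FinGen (A : ℤ → ℤ → Sch ℤ → ModuleCat.{w} ℤ) (n i : ℤ) (X : Sch ℤ) : Prop :=
  Module.Finite ℤ (A n i X)

variable {A : ℤ → ℤ → Sch ℤ → ModuleCat.{w} ℤ}

lemma fin_iso' {P Q : ModuleCat.{w} ℤ} (e : P ≅ Q) (h : Module.Finite ℤ P) : Module.Finite ℤ Q :=
  Module.Finite.equiv e.toLinearEquiv

/-- Closure properties for a fixed weight. -/
theorem gclo_zc (hA : IsZc A) {n : ℤ} (hn : n < 0) : GClo True (FinGen A n) where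
  iso hX e i h := by
    obtain ⟨e⟩ := hA.iso n hn hX e i
    exact fin_iso' e h
  total f g hX ht i hZ hU := by
    obtain ⟨m, hm⟩ := hA.les n hn f g hX ht
    exact serre_exact serre_finite (hm.fg i) hZ hU
  opened f g hX ht i hZ hX' := by
    obtain ⟨m, hm⟩ := hA.les n hn f g hX ht
    exact serre_exact serre_finite (hm.gh i) hX' hZ
  torus B _ _ _ i h := by
    obtain ⟨s, r, hsr⟩ := hA.torus n hn B i
    have hm : Mono s := mono_of_mono_fac hsr
    exact (serre_finite (E := ℤ)).of_mono s h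

/-- All weights follow from the weight `-1`. -/
theorem all_weights (hA : IsZc A) (h : ∀ X : Sch ℤ, FT True X → ∀ i, FinGen A (-1) i X) :
    ∀ n < 0, ∀ X : Sch ℤ, FT True X → ∀ i, FinGen A n i X := by
  have key : ∀ m : ℕ, ∀ X : Sch ℤ, FT True X → ∀ i, FinGen A (-1 - m) i X := by
    intro m
    induction m with
    | zero => simpa using h
    | succ m ih =>
      intro X hX i
      have hn : (-1 - (m : ℤ)) < 0 := by omega
      have e1 : (-1 - ((m + 1 : ℕ) : ℤ)) = (-1 - (m : ℤ)) - 1 := by push_cast; ring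
      rw [e1]
      have hC := gclo_zc hA (n := (-1 - (m : ℤ)) - 1) (by omega)
      refine of_affine' (P := FinGen A ((-1 - (m : ℤ)) - 1) i) (fun hX e h => hC.iso hX e i h)
        (fun f g hX ht h h' => hC.total f g hX ht i h h') ?_ X hX
      intro B _ _ _
      obtain ⟨e⟩ := hA.line _ hn B (i - 2)
      have h3 := fin_iso' e (ih _ (ft_aff True) _)
      rwa [sub_add_cancel] at h3
  intro n hn X hX i
  have := key (-1 - n).toNat X hX i
  have e : (-1 - (((-1 - n).toNat : ℕ) : ℤ)) = n := by omega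
  rwa [e] at this

/-- All weights and all schemes, and the three-term systems in weight `-1` and degrees `i ≤ N`. -/
theorem zc_iff (hA : IsZc A) (N : ℤ) :
    (∀ n < 0, ∀ X : Sch ℤ, FT True X → ∀ i, FinGen A n i X) ↔ SysBelow (FinGen A (-1)) N := by
  have h0 := graded_iff short_int (gclo_zc hA (n := -1) (by norm_num)) N
  constructor
  · intro h
    exact h0.mp (h (-1) (by norm_num))
  · intro h
    exact all_weights hA (h0.mpr h)

end Run7.h798.UV
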