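import Pool.Agent.Q282.UZ.Sys

/-!
# The geometric content of the reduction to three-term systems, and graded closure properties
-/

set_option autoImplicit false

open CategoryTheory CategoryTheory.Limits AlgebraicGeometry MvPolynomial Pool.Agent.Y116.UV
  Pool.Agent.Q282.UK Pool.Agent.Q282.UZ

namespace Run7.h798.UV

variable {R : Type} [CommRing R]

/-- `X` is isomorphic to a system of bilinear equations with at most three terms. -/
def IsSys (X : Sch R) : Prop :=
  ∃ (a b c : ℕ) (E : Fin c → Finset (Fin a × Fin b)), (∀ l, (E l).card ≤ 3) ∧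
    Nonempty (sysS R E ≅ X)

lemma isSys_few {β γ κ : Type} [Fintype β] [Fintype γ] [Fintype κ] (f : κ → MvPolynomial (β ⊕ γ) R)
    (hf : ∀ k, IsFew (f k)) :
    IsSys (aff R (MvPolynomial (β ⊕ γ) R ⧸ Ideal.span (Set.range f))) := by
  classical
  choose E hE hT using hf
  have h2 : f = fun k => few R (E k) := funext hT
  rw [h2]
  exact ⟨_, _, _, _, fun l => (by rw [Finset.card_map]; exact hE _), ⟨(affIso (fewRename
    (Fintype.equivFin β).symm (Fintype.equivFin γ).symm (Fintype.equivFin κ).symm E)).symm⟩⟩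

lemma IsSys.of_alg {A B : Type} [CommRing A] [CommRing B] [Algebra R A] [Algebra R B]
    (e : A ≃ₐ[R] B) (h : IsSys (aff R A)) : IsSys (aff R B) := by
  obtain ⟨a, b, c, E, hE, ⟨f⟩⟩ := h
  exact ⟨a, b, c, E, hE, ⟨f ≪≫ (affIso e).symm⟩⟩

/-- For every algebra `A` of finite type there is a three-term system `X` and a closed subscheme `Z`,
also a three-term system, whose complement is isomorphic to `Spec A × 𝔾_m × 𝔾_m`. -/
theorem geom (hS : ShortPresents R) (sep : Prop) (A : Type) [CommRing A] [Algebra R A]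
    [Algebra.FiniteType R A] :
    ∃ (Z X U : Sch R) (i : Z ⟶ X) (j : U ⟶ X), FT sep X ∧ IsTriple i j ∧ IsSys Z ∧ IsSys X ∧
      FT sep U ∧ Nonempty (U ≅ aff R (LaurentPolynomial (LaurentPolynomial A))) := by
  classical
  obtain ⟨n, φ, G, hs, hK, hc⟩ := hS A
  let D : ℕ := 1 + ∑ g ∈ G, ∑ m ∈ g.support, m.degree
  have hD : 1 ≤ D := by omega
  have hd : ∀ g ∈ G, ∀ m ∈ g.support, m.degree ≤ D := by
    intro g hg m hm
    have h1 : m.degree ≤ ∑ m ∈ g.support, m.degree :=
      Finset.single_le_sum (f := fun m : Fin n →₀ ℕ => m.degree) (fun _ _ => Nat.zero_le _) hm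
    have h2 : ∑ m ∈ g.support, m.degree ≤ ∑ g ∈ G, ∑ m ∈ g.support, m.degree :=
      Finset.single_le_sum (f := fun g : MvPolynomial (Fin n) R => ∑ m ∈ g.support, m.degree)
        (fun _ _ => Nat.zero_le _) hg
    omega
  have hG : ∀ g ∈ G, φ g = 0 := by
    intro g hg
    have : g ∈ RingHom.ker φ := by
      rw [hK]
      exact Ideal.subset_span hg
    exact this
  have hA : IsSys (aff R (Cone hD G)) := isSys_few (eqs hD G) (eqs_few hD G hd hc)
  let f' : Option (Mon n D ⊕ (Mon n D × Fin n) ⊕ G) → UVRing R n D := fun k =>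
    k.elim (uu R (mo n D) * vv R (mo n D)) (eqs hD G)
  have h2 : IsSys (aff R (UVRing R n D ⧸ Ideal.span (Set.range f'))) := by
    apply isSys_few f'
    rintro (_ | k)
    · exact few_single _ _
    · exact eqs_few hD G hd hc k
  have h3 : Ideal.span (Set.range f') =
      eqI hD G ⊔ Ideal.span {uu R (mo n D) * vv R (mo n D)} := by
    rw [eqI, ← Ideal.span_union]
    congr 1
    ext x
    constructor
    · rintro ⟨_ | k, rfl⟩
      · exact Or.inr rfl
      · exact Or.inl ⟨k, rfl⟩
    · rintro (⟨k, rfl⟩ | rfl)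
      · exact ⟨some k, rfl⟩
      · exact ⟨none, rfl⟩
  rw [h3] at h2
  have h4 : IsSys (aff R (Cone hD G ⧸ Ideal.span {cw hD G})) := by
    have e := (DoubleQuot.quotQuotEquivQuotSupₐ R (eqI hD G)
      (Ideal.span {uu R (mo n D) * vv R (mo n D)})).symm
    have h5 := h2.of_alg (B := Cone hD G ⧸ Ideal.map (Ideal.Quotient.mkₐ R (eqI hD G))
      (Ideal.span {uu R (mo n D) * vv R (mo n D)})) e
    have h6 : Ideal.map (Ideal.Quotient.mkₐ R (eqI hD G))
        (Ideal.span {uu R (mo n D) * vv R (mo n D)}) = Ideal.span {cw hD G} := by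
      rw [Ideal.map_span, Set.image_singleton]
      rfl
    rw [← h6]
    exact h5
  have h6 : Algebra.FiniteType R (LCone hD G) :=
    Algebra.FiniteType.trans (S := Cone hD G) inferInstance inferInstance
  exact ⟨_, _, _, _, _, ft_aff sep, triple_away (cw hD G), h4, hA, ft_aff sep,
    ⟨(affIso (coneEquiv hD G φ hG hd hs hK)).symm⟩⟩

/-- Closure properties of a family of properties with an index `i ∈ ℤ` (a cohomological degree): for
open subschemes the property in degree `i` needs the property in degree `i + 1` for the complement, and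
the property in degree `i` for `X` follows from the property in degree `i - 1` for `X × 𝔾_m`. -/
structure GClo (sep : Prop) (P : ℤ → Sch R → Prop) : Prop where
  iso : ∀ {X Y : Sch R}, FT sep X → Nonempty (X ≅ Y) → ∀ i, P i X → P i Y
  total : ∀ {Z X U : Sch R} (f : Z ⟶ X) (g : U ⟶ X), FT sep X → IsTriple f g → ∀ i, P i Z → P i U →
    P i X
  opened : ∀ {Z X U : Sch R} (f : Z ⟶ X) (g : U ⟶ X), FT sep X → IsTriple f g → ∀ i, P (i + 1) Z →
    P i X → P i U
  torus : ∀ (A : Type) [CommRing A] [Algebra R A] [Algebra.FiniteType R A] (i : ℤ),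
    P (i - 1) (aff R (LaurentPolynomial A)) → P i (aff R A)

/-- `P i` is true in the degrees `i ≤ N` for the three-term systems. -/
def SysBelow (P : ℤ → Sch R → Prop) (N : ℤ) : Prop :=
  ∀ (a b c : ℕ) (E : Fin c → Finset (Fin a × Fin b)), (∀ l, (E l).card ≤ 3) → ∀ i ≤ N,
    P i (sysS R E)

variable {sep : Prop} {P : ℤ → Sch R → Prop}

lemma sys_step (hS : ShortPresents R) (hP : GClo sep P) {N : ℤ} (h : SysBelow P N) (A : Type)
    [CommRing A] [Algebra R A] [Algebra.FiniteType R A] (i : ℤ) (hi : i ≤ N + 1) :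
    P i (aff R A) := by
  obtain ⟨Z, X, U, f, g, hX, ht, ⟨a, b, c, E, hE, hZ⟩, ⟨a', b', c', E', hE', hX'⟩, hU, e⟩ :=
    geom hS sep A
  have h1 : P (i - 2) U := by
    refine hP.opened f g hX ht _ (hP.iso (ft_aff sep) hZ _ (h a b c E hE _ ?_))
      (hP.iso (ft_aff sep) hX' _ (h a' b' c' E' hE' _ ?_)) <;> omega
  have h2 := hP.iso hU e _ h1
  have h7 := ft_laurent (R := R) A
  refine hP.torus A i (hP.torus _ _ ?_)
  have h3 : i - 1 - 1 = i - 2 := by ring
  rw [h3]
  exact h2

/-- **Theorem.** A family of properties with the graded closure properties is true in all degrees for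
all (separated) schemes of finite type as soon as it is true for the three-term systems in the degrees
`i ≤ N` for one integer `N`. -/
theorem graded_iff (hS : ShortPresents R) (hP : GClo sep P) (N : ℤ) :
    (∀ X : Sch R, FT sep X → ∀ i, P i X) ↔ SysBelow P N := by
  constructor
  · intro h a b c E _ i _
    exact h _ (ft_aff sep) i
  · intro h X hX i
    have h1 : ∀ n : ℕ, SysBelow P (N + n) := by
      intro n
      induction n with
      | zero => simpa using h
      | succ n ih =>
        intro a b c E _ i hi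
        exact sys_step hS hP ih _ i (by push_cast at hi; omega)
    have h2 : ∀ (A : Type) [CommRing A] [Algebra R A] [Algebra.FiniteType R A], P i (aff R A) := by
      intro A _ _ _
      exact sys_step hS hP (h1 (i - N).toNat) A i (by omega)
    exact of_affine' (P := P i) (fun hX e h => hP.iso hX e i h)
      (fun f g hX ht h h' => hP.total f g hX ht i h h') h2 X hX

end Run7.h798.UV
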