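import Pool.Agent.Run7.h798.UV.Cat
import Pool.Agent.Run7.h798.UV.Graded

/-!
# Filtered closure properties for comparison maps
-/

set_option autoImplicit false

open CategoryTheory CategoryTheory.Limits AlgebraicGeometry Pool.Agent.Y116.UV Pool.Agent.Z125.UN
  Pool.Agent.Q193.LT

universe w w'

namespace Run7.h798.UV

variable {R : Type} [CommRing R] {ι : Type} {E : Type w'} [CommRing E] {D : PairData.{w} R ι E}
  {δ : ι ≃ ι}

/-- the comparison map in degree `j` is bijective -/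
def BijAt (D : PairData.{w} R ι E) (j : ι) (X : Sch R) : Prop := Function.Bijective (D.ρ j X).hom

section

variable {X Y Z : Sch R} (h : LesPair D δ X Y Z)

include h

lemma les_mid (j : ι) (h1 : BijAt D j Z) (h2 : BijAt D (δ j) X) (h3 : BijAt D (δ j) Z)
    (h4 : BijAt D (δ (δ j)) X) : BijAt D (δ j) Y := by
  obtain ⟨m, m', e, e', c⟩ := h
  exact LinearMap.bijective_of_surjective_of_bijective_of_bijective_of_injective (m.h j).hom
    (m.f (δ j)).hom (m.g (δ j)).hom (m.h (δ j)).hom (m'.h j).hom (m'.f (δ j)).hom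
    (m'.g (δ j)).hom (m'.h (δ j)).hom (D.ρ j Z).hom (D.ρ (δ j) X).hom (D.ρ (δ j) Y).hom
    (D.ρ (δ j) Z).hom (D.ρ (δ (δ j)) X).hom (sq (c.h j)) (sq (c.f _)) (sq (c.g _))
    (sq (c.h _)) (e.hf _) (e.fg _) (e.gh _) (e'.hf _) (e'.fg _) (e'.gh _) h1.2 h2 h3 h4.1

lemma les_right (j : ι) (h1 : BijAt D j X) (h2 : BijAt D j Y) (h3 : BijAt D (δ j) X)
    (h4 : BijAt D (δ j) Y) : BijAt D j Z := by
  obtain ⟨m, m', e, e', c⟩ := h
  exact LinearMap.bijective_of_surjective_of_bijective_of_bijective_of_injective (m.f j).hom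
    (m.g j).hom (m.h j).hom (m.f (δ j)).hom (m'.f j).hom (m'.g j).hom (m'.h j).hom
    (m'.f (δ j)).hom (D.ρ j X).hom (D.ρ j Y).hom (D.ρ j Z).hom (D.ρ (δ j) X).hom
    (D.ρ (δ j) Y).hom (sq (c.f j)) (sq (c.g _)) (sq (c.h _)) (sq (c.f _)) (e.fg _) (e.gh _)
    (e.hf _) (e'.fg _) (e'.gh _) (e'.hf _) h1.2 h2 h3 h4.1

lemma les_left (j : ι) (h1 : BijAt D j Y) (h2 : BijAt D j Z) (h3 : BijAt D (δ j) Y)
    (h4 : BijAt D (δ j) Z) : BijAt D (δ j) X := by
  obtain ⟨m, m', e, e', c⟩ := h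
  exact LinearMap.bijective_of_surjective_of_bijective_of_bijective_of_injective (m.g j).hom
    (m.h j).hom (m.f (δ j)).hom (m.g (δ j)).hom (m'.g j).hom (m'.h j).hom (m'.f (δ j)).hom
    (m'.g (δ j)).hom (D.ρ j Y).hom (D.ρ j Z).hom (D.ρ (δ j) X).hom (D.ρ (δ j) Y).hom
    (D.ρ (δ j) Z).hom (sq (c.g j)) (sq (c.h _)) (sq (c.f _)) (sq (c.g _)) (e.gh _) (e.hf _)
    (e.fg _) (e'.gh _) (e'.hf _) (e'.fg _) h1.2 h2 h3 h4.1

end

/-- Bijectivity in the degrees `j` with `d j ≥ -N`. -/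
def BijFrom (D : PairData.{w} R ι E) (d : ι → ℤ) (N : ℤ) (X : Sch R) : Prop :=
  ∀ j, -N ≤ d j → BijAt D j X

variable {τ σ : ι ≃ ι} {d : ι → ℤ}

lemma tau_pow (hτ : ∀ j, d (τ j) = d j) (n : ℤ) (j : ι) : d (((τ : Equiv.Perm ι) ^ n) j) = d j := by
  have hi : ∀ j, d ((τ : Equiv.Perm ι)⁻¹ j) = d j := by
    intro j
    have h2 : τ ((τ : Equiv.Perm ι)⁻¹ j) = j := Equiv.apply_symm_apply τ j
    rw [← hτ ((τ : Equiv.Perm ι)⁻¹ j), h2]
  induction n using Int.induction_on generalizing j with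
  | zero => rfl
  | succ n ih => rw [zpow_add_one, Equiv.Perm.mul_apply, ih, hτ]
  | pred n ih => rw [zpow_sub_one, Equiv.Perm.mul_apply, ih, hi]

/-- The filtered closure properties. -/
theorem funi_pair (hD : IsPair D δ τ σ) (hc : ∀ {Z X U : Sch R} (i : Z ⟶ X) (j : U ⟶ X), FT True X →
      IsTriple i j → LesPair D δ Z X U) (hδ : ∀ j, d (δ j) = d j - 1) (hτ : ∀ j, d (τ j) = d j)
    (hσ : ∀ j, d (σ j) = d j + 1) (h1 : BijAll D (aff R R)) : FUni True (BijFrom D d) := by
  have hn : ∀ n : ℕ, BijAll D (aff R (MvPolynomial (Fin n) R)) := (bnd_pair hD h1).space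
  exact
  { mono := fun N X _ h j hj => h j (by omega)
    iso := fun hX e N h j hj => (hD.iso hX e j).iff.mp (h j hj)
    total := fun i j hX ht N hZ hU q hq => by
      obtain ⟨q, rfl⟩ := δ.surjective q
      have e := hδ q
      have e2 := hδ (δ q)
      exact les_mid (hc i j hX ht) q (hU q (by omega)) (hZ _ (by omega)) (hU _ (by omega))
        (hZ _ (by omega))
    opened := fun i j hX ht N hZ hX' q hq => by
      have e := hδ q
      exact les_right (hc i j hX ht) q (hZ q (by omega)) (hX' q (by omega)) (hZ _ (by omega))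
        (hX' _ (by omega))
    torus := fun B _ _ _ N h q hq => by
      have e := hσ q
      exact (hD.torus B q).bij (h (σ q) (by omega))
    closed := fun i j hX ht N hX' hU q hq => by
      obtain ⟨q, rfl⟩ := δ.surjective q
      have e := hδ q
      exact les_left (hc i j hX ht) q (hX' q (by omega)) (hU q (by omega)) (hX' _ hq) (hU _ hq)
    space := fun n N q _ => hn n q
    jouanolou := fun B _ _ _ m f U j hj hr N h q hq => by
      obtain ⟨q, rfl⟩ := ((τ : Equiv.Perm ι) ^ (1 - m : ℤ)).surjective q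
      rw [tau_pow hτ] at hq
      exact (hD.bundle B m f U j hj hr q).iff.mp (h q hq) }

section reg

variable {k : Type} [CommRing k] [IsNoetherianRing k] {E : Type} [Field E]

/-- The filtered closure properties for regulators. -/
theorem funi_reg {T : ι → Sch k → RegMod.{w} E} (h : IsReg T δ τ σ) (hδ : ∀ j, d (δ j) = d j - 1)
    (hτ : ∀ j, d (τ j) = d j) (hσ : ∀ j, d (σ j) = d j + 1) (h1 : ∀ j, (T j (aff k k)).TB) :
    FUni True fun N X => ∀ j, -N ≤ d j → (T j X).TB := by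
  have h2 := funi_pair (D := pairOf T) (isPair_of h) (fun i j hX ht => by
    obtain ⟨m, hm⟩ := h.les i j hX ht
    have h1 := h.fin _ hX
    have h2 := h.fin _ (ft_closed i hX ht.closed)
    have h3 := h.fin _ (ft_open j hX ht.opened)
    exact ⟨⟨fun j => (mF E).map (m.f j), fun j => (mF E).map (m.g j),
      fun j => (mF E).map (m.h j)⟩, ⟨fun j => (genF E).map (m.f j), fun j => (genF E).map (m.g j),
      fun j => (genF E).map (m.h j)⟩, ⟨fun j => (hm.fg j).1, fun j => (hm.gh j).1,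
      fun j => (hm.hf j).1⟩, ⟨fun j => gen_exactAt _ _ (hm.fg j), fun j => gen_exactAt _ _ (hm.gh j),
      fun j => gen_exactAt _ _ (hm.hf j)⟩, ⟨fun j => (rho E).naturality _,
      fun j => (rho E).naturality _, fun j => (rho E).naturality _⟩⟩) hδ hτ hσ (bij_pairOf.mpr h1)
  have h3 : BijFrom (pairOf T) d = fun N X => ∀ j, -N ≤ d j → (T j X).TB := by
    funext N X
    exact propext (forall_congr' fun j => imp_congr_right fun _ => (tb_iff (T j X)).symm)
  rw [← h3]
  exact h2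

end reg

end Run7.h798.UV
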