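import Pool.Agent.Run7.h798.UV.Gen
import Pool.Agent.Q193.LT.Pair

/-!
# Regulators with values in modules with an endomorphism

`RegMod E` is the category of linear maps `reg : M → H` over a field `E` with an endomorphism `F` of `H`
(Frobenius) such that `F ∘ reg = reg`.
-/

set_option autoImplicit false

open CategoryTheory CategoryTheory.Limits AlgebraicGeometry Pool.Agent.Y116.UV Pool.Agent.Z125.UN
  Pool.Agent.Q193.LT

universe w

namespace Run7.h798.UV

/-- A linear map `reg : M → H` of `E`-vector spaces and an endomorphism `F` of `H` which is the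
identity on the image of `reg`. -/
structure RegMod (E : Type) [Field E] where
  /-- motivic homology -/
  M : ModuleCat.{w} E
  /-- étale homology -/
  H : ModuleCat.{w} E
  /-- Frobenius -/
  F : H ⟶ H
  /-- the regulator -/
  reg : M ⟶ H
  inv : reg ≫ F = reg

variable {E : Type} [Field E]

/-- Homomorphisms: pairs of linear maps commuting with `F` and `reg`. -/
@[ext]
structure RegMod.Hom (A B : RegMod.{w} E) where
  m : A.M ⟶ B.M
  h : A.H ⟶ B.H
  F : A.F ≫ h = h ≫ B.F
  reg : A.reg ≫ h = m ≫ B.reg

instance : Category (RegMod.{w} E) where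
  Hom := RegMod.Hom
  id A := ⟨𝟙 _, 𝟙 _, by simp, by simp⟩
  comp {A B C} f g := ⟨f.m ≫ g.m, f.h ≫ g.h,
    by rw [← Category.assoc, f.F, Category.assoc, g.F, Category.assoc],
    by rw [← Category.assoc, f.reg, Category.assoc, g.reg, Category.assoc]⟩
  id_comp f := by
    apply RegMod.Hom.ext
    · exact Category.id_comp _
    · exact Category.id_comp _
  comp_id f := by
    apply RegMod.Hom.ext
    · exact Category.comp_id _
    · exact Category.comp_id _
  assoc f g h := by
    apply RegMod.Hom.ext
    · exact Category.assoc _ _ _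
    · exact Category.assoc _ _ _

/-- Exactness of `A → B → C` for both components. -/
def ExactReg {A B C : RegMod.{w} E} (f : A ⟶ B) (g : B ⟶ C) : Prop :=
  ExactAt f.m g.m ∧ ExactAt f.h g.h

/-- **The condition TB**: the regulator is an isomorphism onto the fixed vectors of Frobenius, and the
eigenvalue `1` of Frobenius is semisimple (the generalized eigenspace is the eigenspace). -/
def RegMod.TB (A : RegMod.{w} E) : Prop :=
  Function.Injective A.reg.hom ∧
    LinearMap.range A.reg.hom = Module.End.eigenspace A.F.hom 1 ∧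
    Module.End.maxGenEigenspace A.F.hom 1 = Module.End.eigenspace A.F.hom 1

lemma reg_mem (A : RegMod.{w} E) (x : A.M) :
    A.reg.hom x ∈ Module.End.eigenspace A.F.hom (1 : E) := by
  rw [Module.End.mem_eigenspace_iff, one_smul]
  exact congrArg (fun f => f.hom x) A.inv

lemma eig_le (A : RegMod.{w} E) :
    Module.End.eigenspace A.F.hom (1 : E) ≤ Module.End.maxGenEigenspace A.F.hom 1 := by
  intro x hx
  rw [Module.End.mem_maxGenEigenspace]
  refine ⟨1, ?_⟩
  rw [pow_one, LinearMap.sub_apply, Module.End.mem_eigenspace_iff.mp hx]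
  simp

/-- the functor `M` -/
def mF (E : Type) [Field E] : RegMod.{w} E ⥤ ModuleCat.{w} E where
  obj A := A.M
  map f := f.m

lemma comm_F {A B : RegMod.{w} E} (f : A ⟶ B) (x : A.H) : f.h.hom (A.F.hom x) = B.F.hom (f.h.hom x) :=
  congrArg (fun g => g.hom x) f.F

/-- the functor of generalized eigenspaces -/
noncomputable def genF (E : Type) [Field E] : RegMod.{w} E ⥤ ModuleCat.{w} E where
  obj A := ModuleCat.of E (Module.End.maxGenEigenspace A.F.hom (1 : E))
  map {A B} f := ModuleCat.ofHom (genMap f.h.hom A.F.hom B.F.hom (comm_F f))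
  map_id A := by
    ext x
    rfl
  map_comp f g := by
    ext x
    rfl

/-- the regulator with values in the generalized eigenspace -/
noncomputable def rho (E : Type) [Field E] : mF.{w} E ⟶ genF.{w} E where
  app A := ModuleCat.ofHom (LinearMap.codRestrict _ A.reg.hom fun x => eig_le A (reg_mem A x))
  naturality {A B} f := by
    ext x
    apply Subtype.ext
    exact (congrArg (fun g => g.hom x) f.reg).symm

lemma tb_iff (A : RegMod.{w} E) : A.TB ↔ Function.Bijective ((rho E).app A).hom := by
  constructor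
  · rintro ⟨h1, h2, h3⟩
    refine ⟨fun x y h => h1 (congrArg Subtype.val h), fun y => ?_⟩
    change Module.End.maxGenEigenspace A.F.hom (1 : E) at y
    have h4 : (y : A.H) ∈ LinearMap.range A.reg.hom := by
      rw [h2, ← h3]
      exact y.2
    obtain ⟨x, hx⟩ := h4
    exact ⟨x, Subtype.ext hx⟩
  · rintro ⟨h1, h2⟩
    have h3 : Module.End.maxGenEigenspace A.F.hom 1 ≤ LinearMap.range A.reg.hom := by
      intro y hy
      obtain ⟨x, hx⟩ := h2 ⟨y, hy⟩
      exact ⟨x, congrArg Subtype.val hx⟩
    have h4 : LinearMap.range A.reg.hom ≤ Module.End.eigenspace A.F.hom 1 := by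
      rintro _ ⟨x, rfl⟩
      exact reg_mem A x
    refine ⟨fun x y h => h1 (Subtype.ext h), le_antisymm h4 ((eig_le A).trans h3),
      le_antisymm (h3.trans h4) (eig_le A)⟩

lemma gen_exactAt {A B C : RegMod.{w} E} [FiniteDimensional E A.H] (f : A ⟶ B) (g : B ⟶ C)
    (h : ExactReg f g) : ExactAt ((genF E).map f) ((genF E).map g) :=
  gen_exact (comm_F f) (comm_F g) h.2

section theory

variable {k : Type} [CommRing k] {ι : Type}

lemma ft_closed {sep : Prop} {Z X : Sch k} (i : Z ⟶ X) (hX : FT sep X)
    (h : IsClosedImmersion i.left) : FT sep Z where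
  locallyOfFiniteType := by
    have := hX.locallyOfFiniteType
    rw [← Over.w i]
    infer_instance
  quasiCompact := by
    have := hX.quasiCompact
    rw [← Over.w i]
    infer_instance
  separated hs := by
    have := hX.separated hs
    rw [← Over.w i]
    infer_instance

lemma ft_open [IsNoetherianRing k] {sep : Prop} {U X : Sch k} (j : U ⟶ X) (hX : FT sep X)
    (h : IsOpenImmersion j.left) : FT sep U where
  locallyOfFiniteType := by
    have := hX.locallyOfFiniteType
    rw [← Over.w j]
    infer_instance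
  quasiCompact := by
    have h1 := hX.locallyOfFiniteType
    have h2 := hX.quasiCompact
    have h3 : IsLocallyNoetherian (Spec (CommRingCat.of k)) := inferInstance
    have h4 : IsLocallyNoetherian X.left := LocallyOfFiniteType.isLocallyNoetherian X.hom
    have h5 : CompactSpace X.left := QuasiCompact.compactSpace_of_compactSpace X.hom
    have h6 : QuasiCompact j.left := inferInstance
    rw [← Over.w j]
    infer_instance
  separated hs := by
    have := hX.separated hs
    rw [← Over.w j]
    infer_instance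

/-- The maps of a sequence `⋯ → T_j Z → T_j X → T_j U → T_{δ j} Z → ⋯` -/
structure LesReg (T : ι → Sch k → RegMod.{w} E) (δ : ι ≃ ι) (Z X U : Sch k) where
  f : ∀ j, T j Z ⟶ T j X
  g : ∀ j, T j X ⟶ T j U
  h : ∀ j, T j U ⟶ T (δ j) Z

/-- The long sequence is exact. -/
structure LesReg.IsExact {T : ι → Sch k → RegMod.{w} E} {δ : ι ≃ ι} {Z X U : Sch k}
    (m : LesReg T δ Z X U) : Prop where
  fg : ∀ j, ExactReg (m.f j) (m.g j)
  gh : ∀ j, ExactReg (m.g j) (m.h j)
  hf : ∀ j, ExactReg (m.h j) (m.f (δ j))

/-- Families of regulators `T_j X` with: finite-dimensional `H`; invariance under isomorphisms; long exact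
sequences for a closed subscheme `Z` of `X` and its complement `U`; affine bundles with fibre `𝔸^{m-1}`
(`τ` is the Tate twist); direct factors for products with `𝔾_m`. -/
structure IsReg (T : ι → Sch k → RegMod.{w} E) (δ τ σ : ι ≃ ι) : Prop where
  fin : ∀ X : Sch k, FT True X → ∀ j, FiniteDimensional E (T j X).H
  iso : ∀ {X Y : Sch k}, FT True X → Nonempty (X ≅ Y) → ∀ j, Nonempty (T j X ≅ T j Y)
  les : ∀ {Z X U : Sch k} (i : Z ⟶ X) (j : U ⟶ X), FT True X → IsTriple i j →
    ∃ m : LesReg T δ Z X U, m.IsExact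
  bundle : ∀ (B : Type) [CommRing B] [Algebra k B] [Algebra.FiniteType k B] (m : ℕ)
    (f : Fin m → B) (U : Sch k) (j : U ⟶ aff k B), IsOpenImmersion j.left →
    Set.range j.left = {x : PrimeSpectrum B | ∃ l, f l ∉ x.asIdeal} →
    ∀ q, Nonempty (T q (aff k (Jou f)) ≅ T (((τ : Equiv.Perm ι) ^ (1 - m : ℤ)) q) U)
  torus : ∀ (B : Type) [CommRing B] [Algebra k B] [Algebra.FiniteType k B] (q : ι),
    ∃ (s : T q (aff k B) ⟶ T (σ q) (aff k (LaurentPolynomial B)))
      (r : T (σ q) (aff k (LaurentPolynomial B)) ⟶ T q (aff k B)), s ≫ r = 𝟙 _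

/-- the comparison data -/
noncomputable def pairOf (T : ι → Sch k → RegMod.{w} E) : PairData.{w} k ι E where
  A j X := (mF E).obj (T j X)
  B j X := (genF E).obj (T j X)
  ρ j X := (rho E).app (T j X)

lemma bij_pairOf {T : ι → Sch k → RegMod.{w} E} {X : Sch k} :
    BijAll (pairOf T) X ↔ ∀ j, (T j X).TB :=
  forall_congr' fun j => (tb_iff (T j X)).symm

lemma same_pairOf {T : ι → Sch k → RegMod.{w} E} {j j' : ι} {X Y : Sch k} (e : T j X ≅ T j' Y) :
    SameAt (pairOf T) j X j' Y :=
  ⟨(mF E).mapIso e, (genF E).mapIso e, (rho E).naturality e.hom⟩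

theorem isPair_of [IsNoetherianRing k] {T : ι → Sch k → RegMod.{w} E} {δ τ σ : ι ≃ ι}
    (h : IsReg T δ τ σ) :
    IsPair (pairOf T) δ τ σ where
  iso hX e j := by
    obtain ⟨e'⟩ := h.iso hX e j
    exact same_pairOf e'
  les {Z X U} i j hX ht := by
    obtain ⟨m, hm⟩ := h.les i j hX ht
    have h1 := h.fin X hX
    have h2 := h.fin Z (ft_closed i hX ht.closed)
    have h3 := h.fin U (ft_open j hX ht.opened)
    refine Or.inr ⟨⟨fun j => (mF E).map (m.f j), fun j => (mF E).map (m.g j),
      fun j => (mF E).map (m.h j)⟩, ⟨fun j => (genF E).map (m.f j), fun j => (genF E).map (m.g j),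
      fun j => (genF E).map (m.h j)⟩, ⟨fun j => (hm.fg j).1, fun j => (hm.gh j).1,
      fun j => (hm.hf j).1⟩, ⟨fun j => gen_exactAt _ _ (hm.fg j), fun j => gen_exactAt _ _ (hm.gh j),
      fun j => gen_exactAt _ _ (hm.hf j)⟩, ⟨fun j => (rho E).naturality _,
      fun j => (rho E).naturality _, fun j => (rho E).naturality _⟩⟩
  bundle B _ _ _ m f U j hj hr q := by
    obtain ⟨e⟩ := h.bundle B m f U j hj hr q
    exact same_pairOf e
  torus B _ _ _ q := by
    obtain ⟨s, r, hsr⟩ := h.torus B q
    refine ⟨(mF E).map s, (mF E).map r, (genF E).map s, (genF E).map r, ?_, ?_,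
      (rho E).naturality s, (rho E).naturality r⟩
    · exact ((mF E).map_comp s r).symm.trans ((congrArg (mF E).map hsr).trans ((mF E).map_id _))
    · exact ((genF E).map_comp s r).symm.trans ((congrArg (genF E).map hsr).trans ((genF E).map_id _))

end theory

end Run7.h798.UV
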