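import Mathlib

/-!
# Generalized eigenspaces for the eigenvalue one are exact
-/

set_option autoImplicit false

open Polynomial

namespace Run7.h798.UV

section

variable {E : Type*} [Field E] {P Q S : Type*} [AddCommGroup P] [AddCommGroup Q] [AddCommGroup S]
  [Module E P] [Module E Q] [Module E S]

/-- a linear map commuting with endomorphisms commutes with polynomials in them -/
lemma map_aeval {f : P →ₗ[E] Q} {a : Module.End E P} {b : Module.End E Q}
    (h : ∀ x, f (a x) = b (f x)) (p : E[X]) (x : P) : f (aeval a p x) = aeval b p (f x) := by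
  have h2 : ∀ (n : ℕ) (r : E) (y : P),
      f (aeval a (C r * X ^ n) y) = aeval b (C r * X ^ n) (f y) := by
    intro n r y
    simp only [map_mul, aeval_C, map_pow, aeval_X, Module.End.mul_apply,
      Module.algebraMap_end_apply, map_smul]
    congr 1
    induction n generalizing y with
    | zero => simp
    | succ n ih => rw [pow_succ, pow_succ, Module.End.mul_apply, Module.End.mul_apply, ih, h]
  induction p using Polynomial.induction_on with
  | C r => simp [Module.algebraMap_end_apply]
  | add p q hp hq => simp [map_add, hp, hq]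
  | monomial n r ih => exact h2 _ _ _

/-- On a finite-dimensional space and for every `n` there is a polynomial in `a` which is the identity
on the kernel of `(a - 1)^n` for all endomorphisms and maps the space to the generalized
eigenspace. -/
lemma exists_proj [FiniteDimensional E P] (a : Module.End E P) (n : ℕ) :
    ∃ r : E[X], (∃ m : ℕ, ∀ x, aeval a ((X - 1) ^ m * r) x = 0) ∧ ∃ s : E[X],
      s * (X - 1) ^ n + r = 1 := by
  obtain ⟨χ, hχ, h0⟩ : ∃ χ : E[X], aeval a χ = 0 ∧ χ ≠ 0 :=
    ⟨minpoly E a, minpoly.aeval E a, minpoly.ne_zero (Algebra.IsIntegral.isIntegral a)⟩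
  obtain ⟨h, hh1, hh2⟩ := exists_eq_pow_rootMultiplicity_mul_and_not_dvd χ h0 (1 : E)
  have h1 : (X - C (1 : E)) = (X - 1 : E[X]) := by rw [map_one]
  rw [h1] at hh1 hh2
  have hirr : Irreducible (X - 1 : E[X]) := h1 ▸ irreducible_X_sub_C 1
  have hco : IsCoprime ((X - 1 : E[X]) ^ n) h :=
    IsCoprime.pow_left ((Irreducible.coprime_iff_not_dvd hirr).mpr hh2)
  obtain ⟨s, b, hsb⟩ := hco
  refine ⟨b * h, ⟨rootMultiplicity 1 χ, fun x => ?_⟩, s, hsb⟩
  have h3 : (X - 1) ^ rootMultiplicity 1 χ * (b * h) = b * χ := by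
    conv_rhs => rw [hh1]
    ring
  rw [h3, map_mul, hχ, mul_zero]
  rfl

lemma mem_gen {a : Module.End E P} {x : P} :
    x ∈ Module.End.maxGenEigenspace a 1 ↔ ∃ n : ℕ, aeval a ((X - 1 : E[X]) ^ n) x = 0 := by
  rw [Module.End.mem_maxGenEigenspace]
  have : ∀ n, aeval a ((X - 1 : E[X]) ^ n) = (a - (1 : E) • (1 : Module.End E P)) ^ n := by
    intro n
    rw [map_pow, map_sub, aeval_X, map_one, one_smul]
  simp only [this]

/-- A vector of the generalized eigenspace which is in the image is the image of a vector in the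
generalized eigenspace. -/
theorem lift_gen [FiniteDimensional E P] {f : P →ₗ[E] Q} {a : Module.End E P} {b : Module.End E Q}
    (h : ∀ x, f (a x) = b (f x)) {y : Q} (hy : y ∈ Module.End.maxGenEigenspace b 1) (p : P)
    (hp : f p = y) : ∃ x ∈ Module.End.maxGenEigenspace a 1, f x = y := by
  obtain ⟨n, hn⟩ := mem_gen.mp hy
  obtain ⟨r, ⟨m, hm⟩, s, hs⟩ := exists_proj a n
  refine ⟨aeval a r p, mem_gen.mpr ⟨m, ?_⟩, ?_⟩
  · have := hm p
    rwa [map_mul] at this
  · rw [map_aeval h, hp]
    have h1 : aeval b (s * (X - 1) ^ n + r) y = y := by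
      rw [hs, map_one]
      rfl
    rw [map_add, map_mul, LinearMap.add_apply, Module.End.mul_apply, hn, map_zero, zero_add] at h1
    exact h1

lemma gen_le {f : P →ₗ[E] Q} {a : Module.End E P} {b : Module.End E Q}
    (h : ∀ x, f (a x) = b (f x)) {x : P} (hx : x ∈ Module.End.maxGenEigenspace a 1) :
    f x ∈ Module.End.maxGenEigenspace b 1 := by
  obtain ⟨n, hn⟩ := mem_gen.mp hx
  exact mem_gen.mpr ⟨n, by rw [← map_aeval h, hn, map_zero]⟩

/-- The induced map of the generalized eigenspaces. -/
noncomputable def genMap (f : P →ₗ[E] Q) (a : Module.End E P) (b : Module.End E Q)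
    (h : ∀ x, f (a x) = b (f x)) :
    Module.End.maxGenEigenspace a (1 : E) →ₗ[E] Module.End.maxGenEigenspace b (1 : E) :=
  f.restrict fun _ hx => gen_le h hx

@[simp] lemma genMap_coe (f : P →ₗ[E] Q) (a : Module.End E P) (b : Module.End E Q)
    (h : ∀ x, f (a x) = b (f x)) (x : Module.End.maxGenEigenspace a (1 : E)) :
    (genMap f a b h x : Q) = f x := rfl

/-- exactness of the generalized eigenspaces -/
theorem gen_exact [FiniteDimensional E P] {f : P →ₗ[E] Q} {g : Q →ₗ[E] S} {a : Module.End E P}
    {b : Module.End E Q} {c : Module.End E S} (h : ∀ x, f (a x) = b (f x))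
    (h' : ∀ x, g (b x) = c (g x)) (hfg : Function.Exact f g) :
    Function.Exact (genMap f a b h) (genMap g b c h') := by
  intro y
  constructor
  · intro hy
    have h1 : g y = 0 := congrArg Subtype.val hy
    obtain ⟨p, hp⟩ := (hfg y).mp h1
    obtain ⟨x, hx, hxy⟩ := lift_gen h y.2 p hp
    exact ⟨⟨x, hx⟩, Subtype.ext hxy⟩
  · rintro ⟨x, rfl⟩
    apply Subtype.ext
    change g (f x) = 0
    exact (hfg _).mpr ⟨x, rfl⟩

end

end Run7.h798.UV
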