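import Pool.Agent.Run7.h798.UV.Cat

/-!
# Restriction of scalars: induced modules
-/

set_option autoImplicit false

open CategoryTheory CategoryTheory.Limits AlgebraicGeometry Pool.Agent.Y116.UV Pool.Agent.Z125.UN
  Pool.Agent.Q193.LT

universe w

namespace Run7.h798.UV

variable {E : Type} [Field E]

/-- The endomorphism `(v_0, …, v_n) ↦ (F v_n, v_0, …, v_{n-1})` of `P ^ (n + 1)`. -/
def cyc {P : Type*} [AddCommGroup P] [Module E P] (F : P →ₗ[E] P) (n : ℕ) :
    (Fin (n + 1) → P) →ₗ[E] (Fin (n + 1) → P) :=
  LinearMap.pi (Fin.cases (F ∘ₗ LinearMap.proj (Fin.last n)) fun i => LinearMap.proj i.castSucc)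

lemma cyc_zero {P : Type*} [AddCommGroup P] [Module E P] (F : P →ₗ[E] P) (n : ℕ)
    (v : Fin (n + 1) → P) : cyc F n v 0 = F (v (Fin.last n)) := rfl

lemma cyc_succ {P : Type*} [AddCommGroup P] [Module E P] (F : P →ₗ[E] P) (n : ℕ)
    (v : Fin (n + 1) → P) (i : Fin n) : cyc F n v i.succ = v i.castSucc := rfl

/-- The object induced from `A` in degree `n + 1`: the same space `M`, the space `H ^ (n + 1)` with the
endomorphism `(v_0, …, v_n) ↦ (F v_n, v_0, …, v_{n-1})`, and the diagonal of the regulator. -/
def RegMod.ind (A : RegMod.{w} E) (n : ℕ) : RegMod.{w} E where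
  M := A.M
  H := ModuleCat.of E (Fin (n + 1) → A.H)
  F := ModuleCat.ofHom (cyc A.F.hom n)
  reg := ModuleCat.ofHom (LinearMap.pi fun _ => A.reg.hom)
  inv := by
    ext x i
    refine Fin.cases ?_ (fun i => ?_) i
    · exact congrArg (fun f => f.hom x) A.inv
    · rfl

/-- `B` is isomorphic to the object induced from `A` in degree `n + 1`. -/
def IsInduced (A B : RegMod.{w} E) (n : ℕ) : Prop := Nonempty (B ≅ A.ind n)

lemma ss_iff {P : Type*} [AddCommGroup P] [Module E P] (F : Module.End E P) :
    Module.End.maxGenEigenspace F 1 = Module.End.eigenspace F 1 ↔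
      ∀ x y, F x = x + y → F y = y → y = 0 := by
  constructor
  · intro h x y h1 h2
    have h3 : x ∈ Module.End.maxGenEigenspace F 1 := by
      rw [Module.End.mem_maxGenEigenspace]
      refine ⟨2, ?_⟩
      have h4 : (F - (1 : E) • (1 : Module.End E P)) x = y := by
        simp [h1]
      have h5 : (F - (1 : E) • (1 : Module.End E P)) y = 0 := by
        simp [h2]
      rw [pow_two, Module.End.mul_apply, h4, h5]
    rw [h, Module.End.mem_eigenspace_iff, one_smul, h1] at h3
    exact left_eq_add.mp h3.symm
  · intro h
    apply le_antisymm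
    · intro x hx
      rw [Module.End.mem_maxGenEigenspace] at hx
      obtain ⟨n, hn⟩ := hx
      rw [Module.End.mem_eigenspace_iff, one_smul]
      have key : ∀ n : ℕ, ∀ x, ((F - (1 : E) • (1 : Module.End E P)) ^ n) x = 0 → F x = x := by
        intro n
        induction n with
        | zero =>
          intro x hx
          rw [pow_zero, Module.End.one_apply] at hx
          rw [hx, map_zero]
        | succ n ih =>
          intro x hx
          rw [pow_succ, Module.End.mul_apply] at hx
          have h1 := ih _ hx
          have h2 : (F - (1 : E) • (1 : Module.End E P)) x = F x - x := by simp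
          rw [h2] at h1
          have h3 := h x (F x - x) (by rw [add_sub_cancel]) h1
          exact sub_eq_zero.mp h3
      exact key n x hn
    · intro x hx
      rw [Module.End.mem_maxGenEigenspace]
      refine ⟨1, ?_⟩
      rw [pow_one, LinearMap.sub_apply, Module.End.mem_eigenspace_iff.mp hx]
      simp

lemma mem_eig {P : Type*} [AddCommGroup P] [Module E P] (F : Module.End E P) (x : P) :
    x ∈ Module.End.eigenspace F 1 ↔ F x = x := by
  rw [Module.End.mem_eigenspace_iff, one_smul]

/-- TB for `A` and for an induced module are equivalent in characteristic zero. -/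
theorem tb_induced [CharZero E] {A B : RegMod.{w} E} {n : ℕ} (h : IsInduced A B n) :
    B.TB ↔ A.TB := by
  obtain ⟨e⟩ := h
  let a : A.M ≃ₗ[E] B.M := ((mF E).mapIso e.symm).toLinearEquiv
  let b : B.H ≃ₗ[E] (Fin (n + 1) → A.H) := LinearEquiv.ofLinearMap e.hom.h.hom e.inv.h.hom
    (congrArg (fun f => f.h.hom) e.inv_hom_id) (congrArg (fun f => f.h.hom) e.hom_inv_id)
  have hF : ∀ v, b (B.F.hom v) = cyc A.F.hom n (b v) := fun v => comm_F e.hom v
  have h0 : ∀ v, b (B.F.hom v) 0 = A.F.hom (b v (Fin.last n)) := by
    intro v
    rw [hF]
    rfl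
  have hs : ∀ v (i : Fin n), b (B.F.hom v) i.succ = b v i.castSucc := by
    intro v i
    rw [hF]
    rfl
  have hr : ∀ x i, b (B.reg.hom (a x)) i = A.reg.hom x := by
    intro x i
    have h1 : b (B.reg.hom (a x)) = (A.ind n).reg.hom (e.hom.m.hom (a x)) :=
      congrArg (fun f => f.hom (a x)) e.hom.reg
    have h2 : e.hom.m.hom (a x) = x :=
      congrArg (fun f : A.ind n ⟶ A.ind n => f.m.hom x) e.inv_hom_id
    rw [h1, h2]
    rfl
  have hconst : ∀ v : B.H, B.F.hom v = v → ∀ i, b v i = b v 0 := by
    intro v hv i
    induction i using Fin.induction with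
    | zero => rfl
    | succ i ih =>
      have := hs v i
      rw [hv] at this
      rw [this, ih]
  have hlast : ∀ v : B.H, B.F.hom v = v → A.F.hom (b v 0) = b v 0 := by
    intro v hv
    have := h0 v
    rw [hv, hconst v hv (Fin.last n)] at this
    exact this.symm
  have hfix : ∀ u : A.H, A.F.hom u = u → B.F.hom (b.symm fun _ => u) = b.symm fun _ => u := by
    intro u hu
    apply b.injective
    funext i
    refine Fin.cases ?_ (fun i => ?_) i
    · rw [h0, LinearEquiv.apply_symm_apply, hu]
    · rw [hs, LinearEquiv.apply_symm_apply]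
  have hinj : Function.Injective B.reg.hom ↔ Function.Injective A.reg.hom := by
    constructor
    · intro h x y hxy
      have h1 : B.reg.hom (a x) = B.reg.hom (a y) := by
        apply b.injective
        funext i
        rw [hr, hr, hxy]
      exact a.injective (h h1)
    · intro h x y hxy
      obtain ⟨x, rfl⟩ := a.surjective x
      obtain ⟨y, rfl⟩ := a.surjective y
      have h1 := congrFun (congrArg b hxy) 0
      rw [hr, hr] at h1
      rw [h h1]
  have hran : LinearMap.range B.reg.hom = Module.End.eigenspace B.F.hom 1 ↔
      LinearMap.range A.reg.hom = Module.End.eigenspace A.F.hom 1 := by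
    constructor
    · intro h
      apply le_antisymm
      · rintro _ ⟨x, rfl⟩
        exact reg_mem A x
      · intro u hu
        rw [mem_eig] at hu
        have h1 : (b.symm fun _ => u) ∈ Module.End.eigenspace B.F.hom 1 :=
          (mem_eig _ _).mpr (hfix u hu)
        rw [← h] at h1
        obtain ⟨x, hx⟩ := h1
        obtain ⟨x, rfl⟩ := a.surjective x
        refine ⟨x, ?_⟩
        rw [← hr x 0, hx, LinearEquiv.apply_symm_apply]
    · intro h
      apply le_antisymm
      · rintro _ ⟨x, rfl⟩
        exact reg_mem B x
      · intro v hv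
        rw [mem_eig] at hv
        have h1 : b v 0 ∈ Module.End.eigenspace A.F.hom 1 := (mem_eig _ _).mpr (hlast v hv)
        rw [← h] at h1
        obtain ⟨x, hx⟩ := h1
        refine ⟨a x, ?_⟩
        apply b.injective
        funext i
        rw [hr, hx, hconst v hv i]
  have hss : Module.End.maxGenEigenspace B.F.hom 1 = Module.End.eigenspace B.F.hom 1 ↔
      Module.End.maxGenEigenspace A.F.hom 1 = Module.End.eigenspace A.F.hom 1 := by
    rw [ss_iff, ss_iff]
    constructor
    · intro h x y h1 h2
      -- `v_i = (n + 1 - i) x + …`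
      let v : Fin (n + 1) → A.H := fun i => ((n : E) + 1) • x - ((i : ℕ) : E) • y
      have h3 : B.F.hom (b.symm v) = b.symm v + b.symm fun _ => y := by
        apply b.injective
        funext i
        rw [map_add, Pi.add_apply, LinearEquiv.apply_symm_apply, LinearEquiv.apply_symm_apply]
        refine Fin.cases ?_ (fun i => ?_) i
        · rw [h0, LinearEquiv.apply_symm_apply]
          simp only [v, map_sub, map_smul, h1, h2, Fin.val_last, Fin.val_zero]
          module
        · rw [hs, LinearEquiv.apply_symm_apply]
          simp only [v, Fin.val_succ, Fin.val_castSucc]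
          push_cast
          module
      have h4 := h _ _ h3 (hfix y h2)
      have h5 := congrFun (congrArg b h4) 0
      rw [LinearEquiv.apply_symm_apply, map_zero] at h5
      exact h5
    · intro h v y h1 h2
      have hc := hconst y h2
      have e1 : ∀ i : Fin n, b v i.succ = b v i.castSucc - b y 0 := by
        intro i
        have h3 := hs v i
        rw [h1, map_add, Pi.add_apply, hc] at h3
        rw [← h3]
        module
      have e2 : ∀ i : Fin (n + 1), b v i = b v 0 - ((i : ℕ) : E) • b y 0 := by
        intro i
        induction i using Fin.induction with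
        | zero => simp
        | succ i ih =>
          rw [e1, ih]
          simp only [Fin.val_succ, Fin.val_castSucc]
          push_cast
          module
      have e3 := h0 v
      rw [h1, map_add, Pi.add_apply, e2 (Fin.last n), map_sub, map_smul, hlast y h2,
        Fin.val_last] at e3
      have e4 : A.F.hom (b v 0) = b v 0 + ((n : E) + 1) • b y 0 := by
        have : A.F.hom (b v 0) = (b v 0 + b y 0) + (n : E) • b y 0 := by
          rw [e3]
          module
        rw [this]
        module
      have e5 := h (b v 0) (((n : E) + 1) • b y 0) e4 (by rw [map_smul, hlast y h2])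
      have hn : ((n : E) + 1) ≠ 0 := by
        exact_mod_cast Nat.succ_ne_zero n
      have e6 : b y 0 = 0 := (smul_eq_zero.mp e5).resolve_left hn
      apply b.injective
      funext i
      rw [hc i, e6, map_zero]
      rfl
  rw [RegMod.TB, RegMod.TB, hinj, hran, hss]

end Run7.h798.UV
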