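import Pool.Agent.Run7.h798.UV.Ind
import Pool.Agent.Q282.UZ.Sys

/-!
# The Tate conjecture in characteristic `p` for all schemes: semisimplicity and closure properties
-/

set_option autoImplicit false

open CategoryTheory CategoryTheory.Limits AlgebraicGeometry Pool.Agent.Y116.UV Pool.Agent.Z125.UN
  Pool.Agent.Q193.LT Pool.Agent.Q282.UK Pool.Agent.Q282.UZ

universe w

namespace Run7.h798.UV

variable {E : Type} [Field E]

/-- The map `M → H^F` to the fixed vectors, as an object of the category of linear maps. -/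
noncomputable def RegMod.fixed (A : RegMod.{w} E) : Arrow (ModuleCat.{w} E) :=
  Arrow.mk (ModuleCat.ofHom (LinearMap.codRestrict (Module.End.eigenspace A.F.hom (1 : E)) A.reg.hom
    (reg_mem A)))

/-- The image of the cycle class map is the space of fixed vectors, and the eigenvalue `1` is
semisimple. -/
def RegMod.TateSS (A : RegMod.{w} E) : Prop :=
  LinearMap.range A.reg.hom = Module.End.eigenspace A.F.hom 1 ∧
    Module.End.maxGenEigenspace A.F.hom 1 = Module.End.eigenspace A.F.hom 1

/-- The sequence `A → B → C → 0` is exact on `M`, it is exact at `B` on `H`, and the map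
`H(B) → H(C)` is surjective on the generalized eigenspaces for the eigenvalue `1`. -/
def RightExactReg {A B C : RegMod.{w} E} (f : A ⟶ B) (g : B ⟶ C) : Prop :=
  ExactReg f g ∧ Function.Surjective g.m.hom ∧
    ∀ y ∈ Module.End.maxGenEigenspace C.F.hom (1 : E), ∃ x, g.h.hom x = y

/-- `B` is a subquotient of the generalized eigenspace of `A`: there is a commutative diagram with a
surjection `β` from the generalized eigenspace of `A` and an injection `ι` from the target of `B`. -/
def Dominates (A : RegMod.{w} E) (B : Arrow (ModuleCat.{w} E)) : Prop :=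
  ∃ (W : ModuleCat.{w} E) (α : A.M ⟶ B.left) (β : (genF E).obj A ⟶ W) (ι : B.right ⟶ W),
    Function.Surjective β.hom ∧ Function.Injective ι.hom ∧ (rho E).app A ≫ β = α ≫ B.hom ≫ ι

lemma tateSS_iff (A : RegMod.{w} E) : A.TateSS ↔ Function.Surjective ((rho E).app A).hom := by
  constructor
  · rintro ⟨h2, h3⟩ y
    change Module.End.maxGenEigenspace A.F.hom (1 : E) at y
    have h4 : (y : A.H) ∈ LinearMap.range A.reg.hom := by
      rw [h2, ← h3]
      exact y.2
    obtain ⟨x, hx⟩ := h4
    exact ⟨x, Subtype.ext hx⟩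
  · intro h2
    have h3 : Module.End.maxGenEigenspace A.F.hom 1 ≤ LinearMap.range A.reg.hom := by
      intro y hy
      obtain ⟨x, hx⟩ := h2 ⟨y, hy⟩
      exact ⟨x, congrArg Subtype.val hx⟩
    have h4 : LinearMap.range A.reg.hom ≤ Module.End.eigenspace A.F.hom 1 := by
      rintro _ ⟨x, rfl⟩
      exact reg_mem A x
    exact ⟨le_antisymm h4 ((eig_le A).trans h3), le_antisymm (h3.trans h4) (eig_le A)⟩

lemma fixed_surj (A : RegMod.{w} E) : Function.Surjective A.fixed.hom.hom ↔
    ∀ y, A.F.hom y = y → ∃ x, A.reg.hom x = y := by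
  constructor
  · intro h y hy
    obtain ⟨x, hx⟩ := h ⟨y, (mem_eig _ _).mpr hy⟩
    exact ⟨x, congrArg Subtype.val hx⟩
  · intro h y
    change Module.End.eigenspace A.F.hom (1 : E) at y
    obtain ⟨x, hx⟩ := h y.1 ((mem_eig _ _).mp y.2)
    exact ⟨x, Subtype.ext hx⟩

lemma range_of_fixed {A : RegMod.{w} E} (h : Function.Surjective A.fixed.hom.hom) :
    LinearMap.range A.reg.hom = Module.End.eigenspace A.F.hom 1 := by
  apply le_antisymm
  · rintro _ ⟨x, rfl⟩
    exact reg_mem A x
  · intro y hy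
    exact (fixed_surj A).mp h y ((mem_eig _ _).mp hy)

lemma dominates_surj {A : RegMod.{w} E} {B : Arrow (ModuleCat.{w} E)} (h : Dominates A B)
    (hA : A.TateSS) : Function.Surjective B.hom.hom := by
  obtain ⟨W, α, β, ι, hβ, hι, hc⟩ := h
  intro y
  obtain ⟨x, hx⟩ := hβ (ι.hom y)
  obtain ⟨a, rfl⟩ := (tateSS_iff A).mp hA x
  refine ⟨α.hom a, hι ?_⟩
  rw [← hx]
  exact (congrArg (fun f => f.hom a) hc).symm

lemma ss_mid {A B C : RegMod.{w} E} [FiniteDimensional E A.H] {f : A ⟶ B} {g : B ⟶ C}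
    (h : RightExactReg f g) (hA : A.TateSS) (hC : C.TateSS) : B.TateSS := by
  rw [tateSS_iff] at *
  intro y
  obtain ⟨c, hc⟩ := hC (((genF E).map g).hom y)
  obtain ⟨b, rfl⟩ := h.2.1 c
  have h1 : ((rho E).app C).hom (g.m.hom b) = ((genF E).map g).hom (((rho E).app B).hom b) :=
    congrArg (fun f => f.hom b) ((rho E).naturality g)
  have h2 : ((genF E).map g).hom (y - ((rho E).app B).hom b) = 0 := by
    rw [map_sub, ← h1, hc, sub_self]
  obtain ⟨z, hz⟩ := (gen_exactAt f g h.1 _).mp h2
  obtain ⟨a, rfl⟩ := hA z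
  refine ⟨f.m.hom a + b, ?_⟩
  have h3 : ((rho E).app B).hom (f.m.hom a) = ((genF E).map f).hom (((rho E).app A).hom a) :=
    congrArg (fun f => f.hom a) ((rho E).naturality f)
  have h4 : ((rho E).app B).hom (f.m.hom a) = y - ((rho E).app B).hom b := h3.trans hz
  refine (((rho E).app B).hom.map_add _ _).trans ?_
  refine (congrArg (fun t => t + ((rho E).app B).hom b) h4).trans ?_
  exact sub_add_cancel _ _

lemma ss_right {A B C : RegMod.{w} E} [FiniteDimensional E B.H] {f : A ⟶ B} {g : B ⟶ C}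
    (h : RightExactReg f g) (hB : B.TateSS) : C.TateSS := by
  rw [tateSS_iff] at *
  intro y
  change Module.End.maxGenEigenspace C.F.hom (1 : E) at y
  obtain ⟨x, hx⟩ := h.2.2 y.1 y.2
  obtain ⟨x', hx', hxy⟩ := lift_gen (comm_F g) y.2 x hx
  obtain ⟨b, hb⟩ := hB ⟨x', hx'⟩
  refine ⟨g.m.hom b, ?_⟩
  have h1 : ((rho E).app C).hom (g.m.hom b) = ((genF E).map g).hom (((rho E).app B).hom b) :=
    congrArg (fun f => f.hom b) ((rho E).naturality g)
  rw [h1, hb]
  exact Subtype.ext hxy

lemma ss_retract {A B : RegMod.{w} E} (s : A ⟶ B) (r : B ⟶ A) (h : s ≫ r = 𝟙 A) (hB : B.TateSS) :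
    A.TateSS := by
  rw [tateSS_iff] at *
  intro y
  obtain ⟨b, hb⟩ := hB (((genF E).map s).hom y)
  refine ⟨r.m.hom b, ?_⟩
  have h1 : ((rho E).app A).hom (r.m.hom b) = ((genF E).map r).hom (((rho E).app B).hom b) :=
    congrArg (fun f => f.hom b) ((rho E).naturality r)
  have h2 : ((genF E).map r).hom (((genF E).map s).hom y) = y := by
    have h3 := ((genF E).map_comp s r).symm.trans ((congrArg (genF E).map h).trans ((genF E).map_id _))
    exact congrArg (fun f => f.hom y) h3
  rw [h1, hb, h2]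

/-- The step which gives semisimplicity: if the cycle class maps of `B` and `C` are surjective onto the
fixed vectors, if the class `y` is the image of a class of `A`, and if the eigenvalue `1` of `A` is
semisimple, then `y` is not in the image of `F - 1` on the generalized eigenspace. -/
lemma ss_step {A B C : RegMod.{w} E} [FiniteDimensional E A.H] {f : A ⟶ B} {g : B ⟶ C}
    (h : RightExactReg f g)
    (hC : Function.Surjective C.fixed.hom.hom)
    (hA : Module.End.maxGenEigenspace A.F.hom 1 = Module.End.eigenspace A.F.hom (1 : E)) {x y : B.H}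
    (hx : B.F.hom x = x + y) (hy : B.F.hom y = y) {a : A.M} (ha : B.reg.hom (f.m.hom a) = y) :
    y = 0 := by
  have h0 : g.h.hom y = 0 := by
    have h1 : f.h.hom (A.reg.hom a) = B.reg.hom (f.m.hom a) := congrArg (fun f => f.hom a) f.reg
    rw [← ha, ← h1]
    exact (h.1.2 _).mpr ⟨_, rfl⟩
  have h1 : C.F.hom (g.h.hom x) = g.h.hom x := by
    rw [← comm_F, hx, map_add, h0, add_zero]
  obtain ⟨c, hc⟩ := (fixed_surj C).mp hC _ h1
  obtain ⟨b, rfl⟩ := h.2.1 c
  have h2 : g.h.hom (B.reg.hom b) = C.reg.hom (g.m.hom b) := congrArg (fun f => f.hom b) g.reg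
  have h3 : g.h.hom (x - B.reg.hom b) = 0 := by rw [map_sub, h2, hc, sub_self]
  have hb : B.F.hom (B.reg.hom b) = B.reg.hom b := (mem_eig _ _).mp (reg_mem B b)
  have h4 : x - B.reg.hom b ∈ Module.End.maxGenEigenspace B.F.hom (1 : E) := by
    rw [Module.End.mem_maxGenEigenspace]
    refine ⟨2, ?_⟩
    have e1 : (B.F.hom - (1 : E) • (1 : Module.End E B.H)) (x - B.reg.hom b) = y := by
      simp [hx, hb]
    have e2 : (B.F.hom - (1 : E) • (1 : Module.End E B.H)) y = 0 := by
      simp [hy]
    rw [pow_two, Module.End.mul_apply, e1, e2]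
  obtain ⟨z, hz⟩ := (h.1.2 _).mp h3
  obtain ⟨w, hw, hwx⟩ := lift_gen (comm_F f) h4 z hz
  rw [hA, mem_eig] at hw
  have h5 : B.F.hom (x - B.reg.hom b) = x - B.reg.hom b := by
    rw [← hwx, ← comm_F, hw]
  rw [map_sub, hx, hb] at h5
  have h6 : x + y - B.reg.hom b = x - B.reg.hom b + y := by abel
  rw [h6] at h5
  exact left_eq_add.mp h5.symm

end Run7.h798.UV
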